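import Pool.Agent.Y911.PL.Pairs

/-! Points of the projective line over the rationals, of all heights. -/

set_option autoImplicit false

namespace Pool.Agent.Y911.PL

open Finset
open Pool.Agent.TH867.QF (Fm ev va rs Rs Rs_pos rs_dvd Pt va_pos lin3 dt proportional ht ht_le U
  U_pos dvd_rs)
open Pool.Agent.TH867.SQ (lr lr_rs lr_dvd lr_mul one_light two_light)

variable {r : ℕ}

/-- the constant for the heights -/
noncomputable def KK (L : Fm r) (η : ℝ) : ℝ := (U L : ℝ) * (Rs L : ℝ) ^ 3 * ((Rs L : ℝ) ^ 3) ^ η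

theorem KK_pos (L : Fm r) (η : ℝ) : 0 < KK L η := by
  have h1 : (0 : ℝ) < U L := by exact_mod_cast U_pos L
  have h2 : (0 : ℝ) < Rs L := by exact_mod_cast Rs_pos L
  unfold KK
  positivity

/-- **points of all heights, three forms** -/
theorem three_upper (L : Fm r) {η e : ℝ} (hB : Bd η e) : ∃ D : ℝ, 0 < D ∧ ∀ X : ℝ, 1 ≤ X →
    ∀ F : Finset (ℤ × ℤ), (∀ P ∈ F, Pt L P ∧ (∃ a b c : Fin r, a ≠ b ∧ b ≠ c ∧ a ≠ c ∧
      lr (va L P a) + lr (va L P b) + lr (va L P c) ≤ Real.log X) ∧
      (η = 0 ∨ KK L η * X ^ η ≤ ht P)) →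
    (F.card : ℝ) ≤ D * X ^ e := by
  classical
  obtain ⟨D, hD, h⟩ := zpairs hB
  obtain ⟨R, hR⟩ : ∃ R : ℝ, R = (Rs L : ℝ) := ⟨_, rfl⟩
  have hR1 : 1 ≤ R := by rw [hR]; exact_mod_cast Rs_pos L
  have hR0 : 0 < R := by linarith
  refine ⟨((r : ℝ) ^ 3 + 1) * (2 * (D * (R ^ 3) ^ e)), by positivity, fun X hX F hF => ?_⟩
  have hX0 : 0 < X := by linarith
  -- the sets for given indices
  obtain ⟨G, hG⟩ : ∃ G : Fin r × Fin r × Fin r → Finset (ℤ × ℤ), G = fun σ => F.filter fun P =>
      σ.1 ≠ σ.2.1 ∧ σ.2.1 ≠ σ.2.2 ∧ σ.1 ≠ σ.2.2 ∧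
      lr (va L P σ.1) + lr (va L P σ.2.1) + lr (va L P σ.2.2) ≤ Real.log X := ⟨_, rfl⟩
  have hcov : F ⊆ (Finset.univ : Finset (Fin r × Fin r × Fin r)).biUnion G := by
    intro P hP
    obtain ⟨-, ⟨a, b, c, h1, h2, h3, h4⟩, -⟩ := hF P hP
    rw [Finset.mem_biUnion]
    refine ⟨(a, b, c), Finset.mem_univ _, ?_⟩
    rw [hG]
    exact Finset.mem_filter.2 ⟨hP, h1, h2, h3, h4⟩
  have hGc : ∀ σ : Fin r × Fin r × Fin r, ((G σ).card : ℝ) ≤ 2 * (D * (X * R ^ 3) ^ e) := by
    rintro ⟨a, b, c⟩
    by_cases hab : a ≠ b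
    swap
    · have : G (a, b, c) = ∅ := by
        rw [Finset.eq_empty_iff_forall_notMem]
        intro P hP
        rw [hG] at hP
        exact hab (Finset.mem_filter.1 hP).2.1
      rw [this, Finset.card_empty, Nat.cast_zero]
      positivity
    by_cases hbc : b ≠ c
    swap
    · have : G (a, b, c) = ∅ := by
        rw [Finset.eq_empty_iff_forall_notMem]
        intro P hP
        rw [hG] at hP
        exact hbc (Finset.mem_filter.1 hP).2.2.1
      rw [this, Finset.card_empty, Nat.cast_zero]
      positivity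
    by_cases hac : a ≠ c
    swap
    · have : G (a, b, c) = ∅ := by
        rw [Finset.eq_empty_iff_forall_notMem]
        intro P hP
        rw [hG] at hP
        exact hac (Finset.mem_filter.1 hP).2.2.2.1
      rw [this, Finset.card_empty, Nat.cast_zero]
      positivity
    have hmem : ∀ P ∈ G (a, b, c), Pt L P ∧
        lr (va L P a) + lr (va L P b) + lr (va L P c) ≤ Real.log X ∧
        (η = 0 ∨ KK L η * X ^ η ≤ ht P) := by
      intro P hP
      rw [hG] at hP
      obtain ⟨g1, -, -, -, g2⟩ := Finset.mem_filter.1 hP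
      exact ⟨(hF P g1).1, g2, (hF P g1).2.2⟩
    -- the pair of a point
    obtain ⟨al, hal⟩ : ∃ al : ℤ × ℤ → ℤ, al = fun P => rs L c a * ev L P b := ⟨_, rfl⟩
    obtain ⟨be, hbe⟩ : ∃ be : ℤ × ℤ → ℤ, be = fun P => rs L a b * ev L P c := ⟨_, rfl⟩
    have hsum : ∀ P, al P + be P = - rs L b c * ev L P a := by
      intro P
      rw [hal, hbe]
      exact lin3 L P a b c
    have rca : rs L c a ≠ 0 := L.res c a hac.symm
    have rab : rs L a b ≠ 0 := L.res a b hab
    have rbc : rs L b c ≠ 0 := L.res b c hbc
    obtain ⟨φ, hφ⟩ : ∃ φ : ℤ × ℤ → ℤ × ℤ, φ = fun P =>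
        (al P / (Int.gcd (al P) (be P) : ℤ), be P / (Int.gcd (al P) (be P) : ℤ)) := ⟨_, rfl⟩
    have hal0 : ∀ P, Pt L P → al P ≠ 0 := by
      intro P hP
      rw [hal]
      exact mul_ne_zero rca (hP.ne b)
    have hbe0 : ∀ P, Pt L P → be P ≠ 0 := by
      intro P hP
      rw [hbe]
      exact mul_ne_zero rab (hP.ne c)
    have hab0 : ∀ P, Pt L P → al P + be P ≠ 0 := by
      intro P hP
      rw [hsum]
      exact mul_ne_zero (neg_ne_zero.2 rbc) (hP.ne a)
    have hg0 : ∀ P, Pt L P → (Int.gcd (al P) (be P) : ℤ) ≠ 0 := by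
      intro P hP h0
      have h1 : Int.gcd (al P) (be P) = 0 := by exact_mod_cast h0
      exact hal0 P hP (Int.gcd_eq_zero_iff.1 h1).1
    have hmul1 : ∀ P, (φ P).1 * (Int.gcd (al P) (be P) : ℤ) = al P := by
      intro P
      rw [hφ]
      exact Int.ediv_mul_cancel (Int.gcd_dvd_left _ _)
    have hmul2 : ∀ P, (φ P).2 * (Int.gcd (al P) (be P) : ℤ) = be P := by
      intro P
      rw [hφ]
      exact Int.ediv_mul_cancel (Int.gcd_dvd_right _ _)
    -- the common divisor is bounded
    have hgle : ∀ P, Pt L P → (Int.gcd (al P) (be P) : ℝ) ≤ R ^ 3 := by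
      intro P hP
      have g1 : (Int.gcd (al P) (be P) : ℤ) ∣ rs L c a * rs L a b * rs L b c := by
        -- `g` divides `rs_ca rs_ab rs_bc x` for `x` both coordinates
        have d1 : (Int.gcd (al P) (be P) : ℤ) ∣ rs L c a * rs L a b * ev L P b := by
          have : rs L c a * rs L a b * ev L P b = al P * rs L a b := by rw [hal]; ring
          rw [this]
          exact (Int.gcd_dvd_left _ _).mul_right _
        have d2 : (Int.gcd (al P) (be P) : ℤ) ∣ rs L c a * rs L a b * ev L P c := by
          have : rs L c a * rs L a b * ev L P c = be P * rs L c a := by rw [hbe]; ring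
          rw [this]
          exact (Int.gcd_dvd_right _ _).mul_right _
        have d3 : (Int.gcd (al P) (be P) : ℤ) ∣ (rs L c a * rs L a b * rs L b c) * P.1 := by
          have : (rs L c a * rs L a b * rs L b c) * P.1 =
              L.w c * (rs L c a * rs L a b * ev L P b) -
              L.w b * (rs L c a * rs L a b * ev L P c) := by
            unfold rs ev; ring
          rw [this]
          exact dvd_sub (d1.mul_left _) (d2.mul_left _)
        have d4 : (Int.gcd (al P) (be P) : ℤ) ∣ (rs L c a * rs L a b * rs L b c) * P.2 := by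
          have : (rs L c a * rs L a b * rs L b c) * P.2 =
              L.u b * (rs L c a * rs L a b * ev L P c) -
              L.u c * (rs L c a * rs L a b * ev L P b) := by
            unfold rs ev; ring
          rw [this]
          exact dvd_sub (d2.mul_left _) (d1.mul_left _)
        obtain ⟨x, y, hxy⟩ := hP.cop
        have : rs L c a * rs L a b * rs L b c =
            x * ((rs L c a * rs L a b * rs L b c) * P.1) +
            y * ((rs L c a * rs L a b * rs L b c) * P.2) := by
          linear_combination (-(rs L c a * rs L a b * rs L b c)) * hxy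
        rw [this]
        exact dvd_add (d3.mul_left _) (d4.mul_left _)
      have g2 : Int.gcd (al P) (be P) ∣ (rs L c a).natAbs * (rs L a b).natAbs * (rs L b c).natAbs := by
        rw [← Int.natAbs_mul, ← Int.natAbs_mul]
        exact Int.natCast_dvd.1 g1
      have g3 := Nat.le_of_dvd (by
        have h1 := Int.natAbs_pos.2 rca
        have h2 := Int.natAbs_pos.2 rab
        have h3 := Int.natAbs_pos.2 rbc
        positivity) g2
      have k1 : (rs L c a).natAbs ≤ Rs L := Nat.le_of_dvd (Rs_pos L) (rs_dvd L hac.symm)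
      have k2 : (rs L a b).natAbs ≤ Rs L := Nat.le_of_dvd (Rs_pos L) (rs_dvd L hab)
      have k3 : (rs L b c).natAbs ≤ Rs L := Nat.le_of_dvd (Rs_pos L) (rs_dvd L hbc)
      have g4 : Int.gcd (al P) (be P) ≤ Rs L ^ 3 := by
        refine g3.trans ?_
        calc (rs L c a).natAbs * (rs L a b).natAbs * (rs L b c).natAbs ≤ Rs L * Rs L * Rs L :=
              Nat.mul_le_mul (Nat.mul_le_mul k1 k2) k3
          _ = Rs L ^ 3 := by ring
      rw [hR]
      exact_mod_cast g4
    have hlog1 : Real.log (X * R ^ 3) = Real.log X + 3 * Real.log R := by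
      rw [Real.log_mul hX0.ne' (by positivity), Real.log_pow]
      push_cast
      ring
    have key := h (X * R ^ 3) (one_le_mul_of_one_le_of_one_le hX (one_le_pow₀ hR1))
      ((G (a, b, c)).image φ) (fun w hw => by
      obtain ⟨P, hP, rfl⟩ := Finset.mem_image.1 hw
      obtain ⟨hpt, h4, h5⟩ := hmem P hP
      have a0 := hal0 P hpt
      have b0 := hbe0 P hpt
      have s0 := hab0 P hpt
      have g0 := hg0 P hpt
      have m1 := hmul1 P
      have m2 := hmul2 P
      have d1 : (φ P).1 ∣ al P := ⟨_, m1.symm⟩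
      have d2 : (φ P).2 ∣ be P := ⟨_, m2.symm⟩
      have d3 : (φ P).1 + (φ P).2 ∣ al P + be P :=
        ⟨(Int.gcd (al P) (be P) : ℤ), by rw [add_mul, m1, m2]⟩
      have e1 : lr (φ P).1.natAbs ≤ lr (va L P b) + Real.log R := by
        refine (lr_dvd (Int.natAbs_ne_zero.2 a0) (Int.natAbs_dvd_natAbs.2 d1)).trans ?_
        rw [hal]
        simp only
        rw [Int.natAbs_mul]
        refine (lr_mul _ _ (Int.natAbs_ne_zero.2 rca) (va_pos hpt b).ne').trans ?_
        have := lr_rs L hac.symm
        rw [← hR] at this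
        unfold va
        linarith
      have e2 : lr (φ P).2.natAbs ≤ lr (va L P c) + Real.log R := by
        refine (lr_dvd (Int.natAbs_ne_zero.2 b0) (Int.natAbs_dvd_natAbs.2 d2)).trans ?_
        rw [hbe]
        simp only
        rw [Int.natAbs_mul]
        refine (lr_mul _ _ (Int.natAbs_ne_zero.2 rab) (va_pos hpt c).ne').trans ?_
        have := lr_rs L hab
        rw [← hR] at this
        unfold va
        linarith
      have e3 : lr ((φ P).1 + (φ P).2).natAbs ≤ lr (va L P a) + Real.log R := by
        refine (lr_dvd (Int.natAbs_ne_zero.2 s0) (Int.natAbs_dvd_natAbs.2 d3)).trans ?_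
        rw [hsum, Int.natAbs_mul, Int.natAbs_neg]
        refine (lr_mul _ _ (Int.natAbs_ne_zero.2 rbc) (va_pos hpt a).ne').trans ?_
        have := lr_rs L hbc
        rw [← hR] at this
        unfold va
        linarith
      have f1 : (φ P).1 ≠ 0 := by
        intro h0
        rw [h0, zero_mul] at m1
        exact a0 m1.symm
      refine ⟨?_, f1, ?_, ?_, ?_, ?_⟩
      · rw [Int.isCoprime_iff_gcd_eq_one, hφ]
        simp only
        refine Int.gcd_ediv_gcd_ediv_gcd ?_
        have h1 : Int.gcd (al P) (be P) ≠ 0 := by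
          intro h0
          exact g0 (by rw [h0]; rfl)
        exact Nat.pos_of_ne_zero h1
      · intro h0
        rw [h0, zero_mul] at m2
        exact b0 m2.symm
      · intro h0
        apply s0
        have e4 : al P + be P = ((φ P).1 + (φ P).2) * (Int.gcd (al P) (be P) : ℤ) := by
          rw [add_mul, m1, m2]
        rw [e4, h0, zero_mul]
      · rw [hlog1]
        linarith
      · rcases h5 with h5 | h5
        · left
          rw [h5, Real.rpow_zero]
          have : 0 < (φ P).1.natAbs := Int.natAbs_pos.2 f1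
          exact_mod_cast this
        · -- the height
          have hU : (0 : ℝ) < U L := by exact_mod_cast U_pos L
          have k1 : (ht P : ℝ) ≤ (U L : ℝ) * max (va L P b : ℝ) (va L P c : ℝ) := by
            have := ht_le L P hbc
            rw [← Nat.cast_max]
            exact_mod_cast this
          have k2 : (X * R ^ 3) ^ η * R ^ 3 ≤ max (va L P b : ℝ) (va L P c : ℝ) := by
            have k3 := h5.trans k1
            unfold KK at k3
            rw [← hR] at k3
            rw [Real.mul_rpow hX0.le (by positivity)]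
            have k4 : (U L : ℝ) * (X ^ η * (R ^ 3) ^ η * R ^ 3) ≤
                (U L : ℝ) * max (va L P b : ℝ) (va L P c : ℝ) := by
              refine le_trans (le_of_eq ?_) k3
              ring
            exact le_of_mul_le_mul_left k4 hU
          have hgP := hgle P hpt
          have hg00 : (0 : ℝ) < (Int.gcd (al P) (be P) : ℝ) := by
            have h1 : Int.gcd (al P) (be P) ≠ 0 := by
              intro h0
              exact g0 (by rw [h0]; rfl)
            exact_mod_cast Nat.pos_of_ne_zero h1
          have hpow : 0 ≤ (X * R ^ 3) ^ η := by positivity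
          have n1 : ((φ P).1.natAbs : ℝ) * (Int.gcd (al P) (be P) : ℝ) =
              ((rs L c a).natAbs : ℝ) * (va L P b : ℝ) := by
            have e4 : (al P).natAbs = (rs L c a).natAbs * va L P b := by
              rw [hal]
              simp only
              rw [Int.natAbs_mul]
              rfl
            have := congrArg Int.natAbs m1
            rw [Int.natAbs_mul, Int.natAbs_natCast, e4] at this
            exact_mod_cast this
          have n2 : ((φ P).2.natAbs : ℝ) * (Int.gcd (al P) (be P) : ℝ) =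
              ((rs L a b).natAbs : ℝ) * (va L P c : ℝ) := by
            have e4 : (be P).natAbs = (rs L a b).natAbs * va L P c := by
              rw [hbe]
              simp only
              rw [Int.natAbs_mul]
              rfl
            have := congrArg Int.natAbs m2
            rw [Int.natAbs_mul, Int.natAbs_natCast, e4] at this
            exact_mod_cast this
          have r1 : (1 : ℝ) ≤ ((rs L c a).natAbs : ℝ) := by
            exact_mod_cast Int.natAbs_pos.2 rca
          have r2 : (1 : ℝ) ≤ ((rs L a b).natAbs : ℝ) := by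
            exact_mod_cast Int.natAbs_pos.2 rab
          rcases le_max_iff.1 k2 with k3 | k3
          · left
            have k4 : (X * R ^ 3) ^ η * (Int.gcd (al P) (be P) : ℝ) ≤
                ((φ P).1.natAbs : ℝ) * (Int.gcd (al P) (be P) : ℝ) := by
              rw [n1]
              calc (X * R ^ 3) ^ η * (Int.gcd (al P) (be P) : ℝ) ≤ (X * R ^ 3) ^ η * R ^ 3 :=
                    mul_le_mul_of_nonneg_left hgP hpow
                _ ≤ 1 * (va L P b : ℝ) := by rw [one_mul]; exact k3
                _ ≤ _ := mul_le_mul_of_nonneg_right r1 (Nat.cast_nonneg _)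
            exact le_of_mul_le_mul_right k4 hg00
          · right
            have k4 : (X * R ^ 3) ^ η * (Int.gcd (al P) (be P) : ℝ) ≤
                ((φ P).2.natAbs : ℝ) * (Int.gcd (al P) (be P) : ℝ) := by
              rw [n2]
              calc (X * R ^ 3) ^ η * (Int.gcd (al P) (be P) : ℝ) ≤ (X * R ^ 3) ^ η * R ^ 3 :=
                    mul_le_mul_of_nonneg_left hgP hpow
                _ ≤ 1 * (va L P c : ℝ) := by rw [one_mul]; exact k3
                _ ≤ _ := mul_le_mul_of_nonneg_right r2 (Nat.cast_nonneg _)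
            exact le_of_mul_le_mul_right k4 hg00)
    have hfib : (G (a, b, c)).card ≤ 2 * ((G (a, b, c)).image φ).card := by
      refine Finset.card_le_mul_card_image _ 2 fun w hw => ?_
      rcases ((G (a, b, c)).filter fun P => φ P = w).eq_empty_or_nonempty with he | ⟨P0, hP0⟩
      · rw [he, Finset.card_empty]
        exact Nat.zero_le _
      · obtain ⟨q1, q2⟩ := Finset.mem_filter.1 hP0
        have hpt0 := (hmem P0 q1).1
        have hsub : ((G (a, b, c)).filter fun P => φ P = w) ⊆ {P0, (-P0.1, -P0.2)} := by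
          intro P hP
          obtain ⟨q3, q4⟩ := Finset.mem_filter.1 hP
          have hpt := (hmem P q3).1
          have hd : dt P0 P = 0 := by
            have m1 := hmul1 P
            have m2 := hmul2 P
            have n1 := hmul1 P0
            have n2 := hmul2 P0
            rw [q4] at m1 m2
            rw [q2] at n1 n2
            have e1 : al P0 * be P = al P * be P0 := by
              calc al P0 * be P = (w.1 * (Int.gcd (al P0) (be P0) : ℤ)) *
                    (w.2 * (Int.gcd (al P) (be P) : ℤ)) := by rw [n1, m2]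
                _ = (w.1 * (Int.gcd (al P) (be P) : ℤ)) *
                    (w.2 * (Int.gcd (al P0) (be P0) : ℤ)) := by ring
                _ = al P * be P0 := by rw [m1, n2]
            rw [hal, hbe] at e1
            simp only at e1
            have e2 : (rs L c a * rs L a b * rs L b c) * dt P0 P = 0 := by
              have e3 : rs L b c * dt P0 P =
                  ev L P0 b * ev L P c - ev L P b * ev L P0 c := by
                unfold rs dt ev; ring
              calc (rs L c a * rs L a b * rs L b c) * dt P0 P =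
                  (rs L c a * rs L a b) * (rs L b c * dt P0 P) := by ring
                _ = (rs L c a * ev L P0 b) * (rs L a b * ev L P c) -
                    (rs L c a * ev L P b) * (rs L a b * ev L P0 c) := by rw [e3]; ring
                _ = 0 := by rw [e1, sub_self]
            rcases mul_eq_zero.1 e2 with h0 | h0
            · exact absurd h0 (mul_ne_zero (mul_ne_zero rca rab) rbc)
            · exact h0
          obtain ⟨s, hs, s1, s2⟩ := proportional hpt0.cop hpt.cop hd
          rw [Finset.mem_insert, Finset.mem_singleton]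
          rcases hs with rfl | rfl
          · left
            exact Prod.ext (by rw [s1, one_mul]) (by rw [s2, one_mul])
          · right
            exact Prod.ext (by rw [s1]; ring) (by rw [s2]; ring)
        exact (Finset.card_le_card hsub).trans Finset.card_le_two
    have hfib' : ((G (a, b, c)).card : ℝ) ≤ 2 * (((G (a, b, c)).image φ).card : ℝ) := by
      exact_mod_cast hfib
    linarith
  have h1 : (F.card : ℝ) ≤ ∑ σ : Fin r × Fin r × Fin r, ((G σ).card : ℝ) := by
    exact_mod_cast (Finset.card_le_card hcov).trans Finset.card_biUnion_le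
  have h2 := h1.trans (Finset.sum_le_sum fun σ _ => hGc σ)
  rw [Finset.sum_const, Finset.card_univ, Fintype.card_prod, Fintype.card_prod, Fintype.card_fin,
    nsmul_eq_mul] at h2
  have h3 : 0 ≤ 2 * (D * (X * R ^ 3) ^ e) := by positivity
  have h4 : ((r * (r * r) : ℕ) : ℝ) ≤ (r : ℝ) ^ 3 + 1 := by
    push_cast
    linarith [show (r : ℝ) * (r * r) = (r : ℝ) ^ 3 by ring]
  refine (h2.trans (mul_le_mul_of_nonneg_right h4 h3)).trans (le_of_eq ?_)
  rw [Real.mul_rpow hX0.le (by positivity)]
  ring

/-- three light indices -/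
theorem three_light {d : ℕ} (f : Fin (d + 3) → ℝ) :
    ∃ a b c : Fin (d + 3), a ≠ b ∧ b ≠ c ∧ a ≠ c ∧
      f a + f b + f c ≤ 3 / ((d : ℝ) + 3) * ∑ j, f j := by
  obtain ⟨i, hi⟩ := one_light f
  obtain ⟨b, c, h1, h2, h3, h4⟩ := two_light f i
  refine ⟨i, b, c, h1, h2, h3, ?_⟩
  have hd2 : (0 : ℝ) < (d : ℝ) + 2 := by positivity
  have hd3 : (0 : ℝ) < (d : ℝ) + 3 := by positivity
  obtain ⟨S, hS⟩ : ∃ S, S = ∑ j, f j := ⟨_, rfl⟩
  rw [← hS] at hi h4 ⊢
  have e1 : 3 / ((d : ℝ) + 3) * S =
      2 / ((d : ℝ) + 2) * S + (d : ℝ) / (d + 2) * (S / (d + 3)) := by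
    field_simp
    ring
  have e2 : (d : ℝ) / (d + 2) * f i ≤ (d : ℝ) / (d + 2) * (S / (d + 3)) :=
    mul_le_mul_of_nonneg_left hi (by positivity)
  have e3 : f i + 2 / ((d : ℝ) + 2) * (S - f i) =
      2 / ((d : ℝ) + 2) * S + (d : ℝ) / (d + 2) * f i := by
    field_simp
    ring
  linarith

/-- **points of all heights, `q = d + 3` forms** -/
theorem line_upper {d : ℕ} (L : Fm (d + 3)) {η e : ℝ} (hB : Bd η e) : ∃ D : ℝ, 0 < D ∧
    ∀ X : ℝ, 1 ≤ X →
    ∀ F : Finset (ℤ × ℤ), (∀ P ∈ F, Pt L P ∧ ∑ i, lr (va L P i) ≤ Real.log X ∧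
      (η = 0 ∨ KK L η * (X ^ (3 / ((d : ℝ) + 3))) ^ η ≤ ht P)) →
    (F.card : ℝ) ≤ D * (X ^ (3 / ((d : ℝ) + 3))) ^ e := by
  obtain ⟨D, hD, h⟩ := three_upper L hB
  refine ⟨D, hD, fun X hX F hF => ?_⟩
  have hX0 : 0 < X := by linarith
  have hd3 : (0 : ℝ) < (d : ℝ) + 3 := by positivity
  refine h (X ^ (3 / ((d : ℝ) + 3))) (Real.one_le_rpow hX (by positivity)) F fun P hP => ?_
  obtain ⟨h1, h2, h3⟩ := hF P hP
  refine ⟨h1, ?_, h3⟩
  obtain ⟨a, b, c, g1, g2, g3, g4⟩ := three_light fun i => lr (va L P i)
  refine ⟨a, b, c, g1, g2, g3, g4.trans ?_⟩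
  rw [Real.log_rpow hX0]
  exact mul_le_mul_of_nonneg_left h2 (by positivity)

end Pool.Agent.Y911.PL
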