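import Pool.Agent.Y911.PL.Forms
import Pool.Agent.Results.MP_4d5ce1_nt.AllHeightsSharp

/-! Almost all points of the projective line over the rationals, of all heights. -/

set_option autoImplicit false

namespace Pool.Agent.Y911.PL

open Finset
open Pool.Agent.TH867.QF (Fm ev va Pt ht U U_pos va_le va_pos ht_pos)
open Pool.Agent.TH867.SQ (lr lr_nonneg lr_le_log)
open Pool.Agent.Results.MP_4d5ce1_nt.AllHeightsSharp (Nrm N1 Pts FL ev_eq va_eq lr_sum upper)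

theorem N1_nonneg {q : ℕ} (α : Fin q → ℤ × ℤ) (S : Finset ℕ) (x : ℤ × ℤ) : 0 ≤ N1 α S x :=
  Finset.sum_nonneg fun _ _ => Finset.sum_nonneg fun p _ => Real.log_natCast_nonneg p

theorem SS_nonneg (S : Finset ℕ) : 0 ≤ ∑ p ∈ S, Real.log (p : ℝ) :=
  Finset.sum_nonneg fun p _ => Real.log_natCast_nonneg p

theorem pts_finite {q : ℕ} (hq : 3 ≤ q) (α : Fin q → ℤ × ℤ)
    (hα : ∀ i j, i ≠ j → (α i).1 * (α j).2 ≠ (α j).1 * (α i).2) (S : Finset ℕ) {X : ℝ}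
    (hX : 1 ≤ X) : (Pts α S X).Finite := by
  obtain ⟨C, -, hC⟩ := upper q hq α hα S 1 one_pos
  exact (hC X hX).1

theorem pt_of {q : ℕ} {α : Fin q → ℤ × ℤ}
    (hα : ∀ i j, i ≠ j → (α i).1 * (α j).2 ≠ (α j).1 * (α i).2) {S : Finset ℕ} {X : ℝ}
    {x : ℤ × ℤ} (hx : x ∈ Pts α S X) : Pt (FL α hα) x :=
  ⟨hx.1.1, fun i => by rw [ev_eq]; exact hx.2.1 i⟩

/-- **The order of magnitude.** -/
theorem upper_sharp {q : ℕ} (hq : 3 ≤ q) (α : Fin q → ℤ × ℤ)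
    (hα : ∀ i j, i ≠ j → (α i).1 * (α j).2 ≠ (α j).1 * (α i).2) (S : Finset ℕ) :
    ∃ C : ℝ, 0 < C ∧ ∀ X : ℝ, 1 ≤ X → ((Pts α S X).ncard : ℝ) ≤ C * X ^ (2 / (q : ℝ)) := by
  classical
  obtain ⟨d, rfl⟩ : ∃ d, q = d + 3 := ⟨q - 3, by omega⟩
  obtain ⟨D, hD, hmain⟩ := line_upper (FL α hα) bd_all
  obtain ⟨c, hc⟩ : ∃ c : ℝ, c = ((d + 3 : ℕ) : ℝ) * ∑ p ∈ S, Real.log (p : ℝ) := ⟨_, rfl⟩
  have hc0 : 0 ≤ c := by
    rw [hc]
    exact mul_nonneg (Nat.cast_nonneg _) (SS_nonneg S)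
  refine ⟨D * Real.exp c ^ (2 / ((d + 3 : ℕ) : ℝ)), by positivity, fun X hX => ?_⟩
  have hX0 : 0 < X := by linarith
  have hec : 1 ≤ Real.exp c := Real.one_le_exp hc0
  have hXe : 1 ≤ X * Real.exp c := one_le_mul_of_one_le_of_one_le hX hec
  have hfin := pts_finite hq α hα S hX
  have h1 := hmain (X * Real.exp c) hXe hfin.toFinset (fun t ht => by
    rw [Set.Finite.mem_toFinset] at ht
    refine ⟨pt_of hα ht, ?_, Or.inl rfl⟩
    have h2 := lr_sum α hα S t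
    have h3 := ht.2.2
    rw [Real.log_mul hX0.ne' (Real.exp_pos _).ne', Real.log_exp, hc]
    linarith)
  rw [Set.ncard_eq_toFinset_card _ hfin]
  refine h1.trans (le_of_eq ?_)
  have hd3 : (0 : ℝ) < (d : ℝ) + 3 := by positivity
  rw [← Real.rpow_mul (by positivity), Real.mul_rpow hX0.le (Real.exp_pos _).le]
  have e1 : 3 / ((d : ℝ) + 3) * (2 / 3) = 2 / ((d + 3 : ℕ) : ℝ) := by
    push_cast
    field_simp
  rw [e1]
  ring

/-- the height of a point -/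
noncomputable def hh (x : ℤ × ℤ) : ℝ := Real.log (max x.1.natAbs x.2.natAbs : ℕ)

theorem hh_nonneg (x : ℤ × ℤ) : 0 ≤ hh x := Real.log_natCast_nonneg _

theorem hh_eq (x : ℤ × ℤ) : hh x = Real.log (ht x) := rfl

/-- **The points of large height.** -/
theorem high_points {q : ℕ} (hq : 3 ≤ q) (α : Fin q → ℤ × ℤ)
    (hα : ∀ i j, i ≠ j → (α i).1 * (α j).2 ≠ (α j).1 * (α i).2) (S : Finset ℕ) {δ : ℝ}
    (hδ : 0 < δ) : ∃ ν : ℝ, 0 < ν ∧ ∃ C : ℝ, 0 < C ∧ ∃ X0 : ℝ, 1 ≤ X0 ∧ ∀ X : ℝ, X0 ≤ X →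
      ∀ F : Finset (ℤ × ℤ), (∀ x ∈ F, x ∈ Pts α S X ∧
        (1 / (q : ℝ) + δ) * Real.log X ≤ hh x) → (F.card : ℝ) ≤ C * X ^ (2 / (q : ℝ) - ν) := by
  classical
  obtain ⟨d, rfl⟩ : ∃ d, q = d + 3 := ⟨q - 3, by omega⟩
  have hd3 : (0 : ℝ) < (d : ℝ) + 3 := by positivity
  have hcast : ((d + 3 : ℕ) : ℝ) = (d : ℝ) + 3 := by push_cast; ring
  -- the exponents
  obtain ⟨δ', hδ'⟩ : ∃ δ' : ℝ, δ' = δ * ((d : ℝ) + 3) / 6 := ⟨_, rfl⟩
  have hδ'0 : 0 < δ' := by rw [hδ']; positivity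
  obtain ⟨ν, hν, hν1, hB⟩ := bd_high hδ'0
  obtain ⟨D, hD, hmain⟩ := line_upper (FL α hα) hB
  obtain ⟨c, hc⟩ : ∃ c : ℝ, c = ((d + 3 : ℕ) : ℝ) * ∑ p ∈ S, Real.log (p : ℝ) := ⟨_, rfl⟩
  have hc0 : 0 ≤ c := by
    rw [hc]
    exact mul_nonneg (Nat.cast_nonneg _) (SS_nonneg S)
  obtain ⟨K, hK⟩ : ∃ K, K = KK (FL α hα) (1 / 3 + δ') := ⟨_, rfl⟩
  have hK0 : 0 < K := by rw [hK]; exact KK_pos _ _
  obtain ⟨M, hM⟩ : ∃ M : ℝ, M = 2 / δ * (c * (1 / ((d : ℝ) + 3) + δ / 2) + |Real.log K|) :=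
    ⟨_, rfl⟩
  have hM0 : 0 ≤ M := by rw [hM]; positivity
  refine ⟨3 * ν / ((d : ℝ) + 3), by positivity,
    D * Real.exp c ^ (2 / ((d : ℝ) + 3) - 3 * ν / ((d : ℝ) + 3)), by positivity,
    Real.exp M, Real.one_le_exp hM0, fun X hXM F hF => ?_⟩
  have hX : 1 ≤ X := (Real.one_le_exp hM0).trans hXM
  have hX0 : 0 < X := by linarith
  have hlX : M ≤ Real.log X := by rwa [Real.le_log_iff_exp_le hX0]
  have hec : 1 ≤ Real.exp c := Real.one_le_exp hc0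
  have hXe : 1 ≤ X * Real.exp c := one_le_mul_of_one_le_of_one_le hX hec
  have hXe0 : 0 < X * Real.exp c := by positivity
  have hexp : (X * Real.exp c) ^ (3 / ((d : ℝ) + 3)) = (X * Real.exp c) ^ (3 / ((d : ℝ) + 3)) := rfl
  have h1 := hmain (X * Real.exp c) hXe F (fun x hx => by
    obtain ⟨g1, g2⟩ := hF x hx
    have hpt := pt_of hα g1
    refine ⟨hpt, ?_, Or.inr ?_⟩
    · have h2 := lr_sum α hα S x
      have h3 := g1.2.2
      rw [Real.log_mul hX0.ne' (Real.exp_pos _).ne', Real.log_exp, hc]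
      linarith
    · rw [← hK]
      have hht0 : (0 : ℝ) < ht x := by exact_mod_cast ht_pos hpt
      rw [← Real.log_le_log_iff (by positivity) hht0, Real.log_mul hK0.ne' (by positivity),
        ← Real.rpow_mul hXe0.le, Real.log_rpow hXe0, Real.log_mul hX0.ne' (Real.exp_pos _).ne',
        Real.log_exp, ← hh_eq]
      refine le_trans ?_ g2
      rw [hcast]
      have e1 : 3 / ((d : ℝ) + 3) * (1 / 3 + δ') = 1 / ((d : ℝ) + 3) + δ / 2 := by
        rw [hδ']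
        field_simp
        ring
      rw [e1]
      have e2 : c * (1 / ((d : ℝ) + 3) + δ / 2) + |Real.log K| ≤ δ / 2 * Real.log X := by
        rw [hM] at hlX
        have h5 := mul_le_mul_of_nonneg_left hlX (by positivity : 0 ≤ δ / 2)
        refine le_trans (le_of_eq ?_) h5
        field_simp
      have e3 := le_abs_self (Real.log K)
      have e4 : (1 / ((d : ℝ) + 3) + δ / 2) * (Real.log X + c) =
          (1 / ((d : ℝ) + 3) + δ / 2) * Real.log X + c * (1 / ((d : ℝ) + 3) + δ / 2) := by ring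
      have e5 : (1 / ((d : ℝ) + 3) + δ) * Real.log X =
          (1 / ((d : ℝ) + 3) + δ / 2) * Real.log X + δ / 2 * Real.log X := by ring
      rw [e4, e5]
      linarith)
  refine h1.trans (le_of_eq ?_)
  rw [hcast, ← Real.rpow_mul hXe0.le, Real.mul_rpow hX0.le (Real.exp_pos _).le]
  have e1 : 3 / ((d : ℝ) + 3) * (2 / 3 - ν) = 2 / ((d : ℝ) + 3) - 3 * ν / ((d : ℝ) + 3) := by
    field_simp
  rw [e1]
  ring

/-- **The exceptions.** -/
theorem exceptions_le {q : ℕ} (hq : 3 ≤ q) (α : Fin q → ℤ × ℤ)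
    (hα : ∀ i j, i ≠ j → (α i).1 * (α j).2 ≠ (α j).1 * (α i).2) (S : Finset ℕ) {ε : ℝ}
    (hε : 0 < ε) : ∃ ν : ℝ, 0 < ν ∧ ∃ C : ℝ, 0 < C ∧ ∀ X : ℝ, 1 ≤ X →
      (({x | x ∈ Pts α S X ∧ N1 α S x < ((q : ℝ) - ε) * hh x} : Set (ℤ × ℤ)).ncard : ℝ) ≤
        C * X ^ (2 / (q : ℝ) - ν) := by
  classical
  have hqR : (3 : ℝ) ≤ q := by exact_mod_cast hq
  have hq0 : (0 : ℝ) < q := by linarith
  obtain ⟨e, he⟩ : ∃ e : ℝ, e = min ε 1 := ⟨_, rfl⟩
  have he0 : 0 < e := by rw [he]; exact lt_min hε one_pos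
  have he1 : e ≤ 1 := by rw [he]; exact min_le_right _ _
  have heε : e ≤ ε := by rw [he]; exact min_le_left _ _
  obtain ⟨τ, hτ⟩ : ∃ τ : ℝ, τ = e / (4 * q) := ⟨_, rfl⟩
  have hτ0 : 0 < τ := by rw [hτ]; positivity
  have hτ1 : τ < 1 := by
    rw [hτ, div_lt_one (by positivity)]
    linarith
  obtain ⟨ν1, hν1, C1, hC1, X0, hX01, hhigh⟩ := high_points hq α hα S
    (δ := e / (2 * (q : ℝ) ^ 2)) (by positivity)
  obtain ⟨C2, hC2, hup⟩ := upper_sharp hq α hα S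
  obtain ⟨ν, hν⟩ : ∃ ν : ℝ, ν = min ν1 (τ * (2 / q)) := ⟨_, rfl⟩
  have hν0 : 0 < ν := by rw [hν]; exact lt_min hν1 (by positivity)
  have v1 : ν ≤ ν1 := by rw [hν]; exact min_le_left _ _
  have v2 : ν ≤ τ * (2 / q) := by rw [hν]; exact min_le_right _ _
  refine ⟨ν, hν0, C1 + C2 + C2 * X0 ^ ν, by positivity, fun X hX => ?_⟩
  have hX0 : 0 < X := by linarith
  have hX00 : 0 < X0 := by linarith
  have hfin := pts_finite hq α hα S hX
  have hfinE : ({x | x ∈ Pts α S X ∧ N1 α S x < ((q : ℝ) - ε) * hh x} : Set (ℤ × ℤ)).Finite :=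
    hfin.subset fun x hx => hx.1
  have hP0 : 0 < X ^ (2 / (q : ℝ) - ν) := by positivity
  rcases lt_or_ge X X0 with hXs | hXl
  · have h1 := Set.ncard_le_ncard
      (show ({x | x ∈ Pts α S X ∧ N1 α S x < ((q : ℝ) - ε) * hh x} : Set (ℤ × ℤ)) ⊆ Pts α S X
        from fun x hx => hx.1) hfin
    have h2 := hup X hX
    have h3 : X ^ (2 / (q : ℝ)) = X ^ ν * X ^ (2 / (q : ℝ) - ν) := by
      rw [← Real.rpow_add hX0]
      congr 1
      ring
    have h4 : X ^ ν ≤ X0 ^ ν := Real.rpow_le_rpow hX0.le hXs.le hν0.le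
    calc (({x | x ∈ Pts α S X ∧ N1 α S x < ((q : ℝ) - ε) * hh x} : Set (ℤ × ℤ)).ncard : ℝ) ≤
          ((Pts α S X).ncard : ℝ) := by exact_mod_cast h1
      _ ≤ C2 * (X ^ ν * X ^ (2 / (q : ℝ) - ν)) := by rw [← h3]; exact h2
      _ ≤ C2 * (X0 ^ ν * X ^ (2 / (q : ℝ) - ν)) := by gcongr
      _ = C2 * X0 ^ ν * X ^ (2 / (q : ℝ) - ν) := by ring
      _ ≤ _ := by
          apply mul_le_mul_of_nonneg_right _ hP0.le
          linarith
  · rw [Set.ncard_eq_toFinset_card _ hfinE]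
    obtain ⟨F, hF⟩ : ∃ F, F = hfinE.toFinset := ⟨_, rfl⟩
    rw [← hF]
    have hFm : ∀ x ∈ F, x ∈ Pts α S X ∧ N1 α S x < ((q : ℝ) - ε) * hh x := fun x hx => by
      rw [hF, Set.Finite.mem_toFinset] at hx
      exact hx
    obtain ⟨F1, hF1⟩ : ∃ F1, F1 = F.filter fun x => (1 - τ) * Real.log X ≤ N1 α S x := ⟨_, rfl⟩
    obtain ⟨F2, hF2⟩ : ∃ F2, F2 = F.filter fun x => ¬ (1 - τ) * Real.log X ≤ N1 α S x := ⟨_, rfl⟩
    have hcard : (F.card : ℝ) = F1.card + F2.card := by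
      have : F.card = F1.card + F2.card := by
        rw [hF1, hF2]
        exact (Finset.card_filter_add_card_filter_not (s := F) _).symm
      rw [this, Nat.cast_add]
    have hlX : 0 ≤ Real.log X := Real.log_nonneg hX
    have b1 : (F1.card : ℝ) ≤ C1 * X ^ (2 / (q : ℝ) - ν1) := by
      refine hhigh X hXl F1 fun x hx => ?_
      rw [hF1, Finset.mem_filter] at hx
      obtain ⟨g1, g2⟩ := hFm x hx.1
      refine ⟨g1, ?_⟩
      have h1 := hx.2
      have h2 : ((q : ℝ) - ε) * hh x ≤ (q - e) * hh x :=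
        mul_le_mul_of_nonneg_right (by linarith) (hh_nonneg x)
      have h3 : (1 - τ) * Real.log X ≤ (q - e) * hh x := by linarith
      have hqe : 0 < (q : ℝ) - e := by linarith
      have h4 : (1 / (q : ℝ) + e / (2 * (q : ℝ) ^ 2)) * (q - e) ≤ 1 - τ := by
        rw [hτ]
        have e5 : (1 / (q : ℝ) + e / (2 * (q : ℝ) ^ 2)) * (q - e) =
            1 - e / (2 * q) - e ^ 2 / (2 * (q : ℝ) ^ 2) := by
          field_simp
          ring
        rw [e5]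
        have e6 : e / (4 * (q : ℝ)) = e / (2 * q) / 2 := by
          rw [div_div]
          congr 1
          ring
        have e7 : 0 ≤ e / (2 * (q : ℝ)) := by positivity
        have e8 : 0 ≤ e ^ 2 / (2 * (q : ℝ) ^ 2) := by positivity
        rw [e6]
        linarith
      have h5 : ((1 / (q : ℝ) + e / (2 * (q : ℝ) ^ 2)) * Real.log X) * (q - e) ≤
          hh x * (q - e) := by
        calc ((1 / (q : ℝ) + e / (2 * (q : ℝ) ^ 2)) * Real.log X) * (q - e) =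
              ((1 / (q : ℝ) + e / (2 * (q : ℝ) ^ 2)) * (q - e)) * Real.log X := by ring
          _ ≤ (1 - τ) * Real.log X := mul_le_mul_of_nonneg_right h4 hlX
          _ ≤ (q - e) * hh x := h3
          _ = hh x * (q - e) := by ring
      exact le_of_mul_le_mul_right h5 hqe
    have b2 : (F2.card : ℝ) ≤ C2 * X ^ (2 / (q : ℝ) - ν) := by
      have hXt : 1 ≤ X ^ (1 - τ) := Real.one_le_rpow hX (by linarith)
      have hsub : (F2 : Set (ℤ × ℤ)) ⊆ Pts α S (X ^ (1 - τ)) := by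
        intro x hx
        rw [Finset.mem_coe, hF2, Finset.mem_filter] at hx
        obtain ⟨g1, g2⟩ := hFm x hx.1
        refine ⟨g1.1, g1.2.1, ?_⟩
        rw [Real.log_rpow hX0]
        exact (not_le.1 hx.2).le
      have h1 := Set.ncard_le_ncard hsub (pts_finite hq α hα S hXt)
      rw [Set.ncard_coe_finset] at h1
      calc (F2.card : ℝ) ≤ ((Pts α S (X ^ (1 - τ))).ncard : ℝ) := by exact_mod_cast h1
        _ ≤ C2 * (X ^ (1 - τ)) ^ (2 / (q : ℝ)) := hup _ hXt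
        _ ≤ C2 * X ^ (2 / (q : ℝ) - ν) := by
            apply mul_le_mul_of_nonneg_left _ hC2.le
            rw [← Real.rpow_mul hX0.le]
            refine Real.rpow_le_rpow_of_exponent_le hX ?_
            have : (1 - τ) * (2 / (q : ℝ)) = 2 / q - τ * (2 / q) := by ring
            rw [this]
            linarith
    have b3 : X ^ (2 / (q : ℝ) - ν1) ≤ X ^ (2 / (q : ℝ) - ν) :=
      Real.rpow_le_rpow_of_exponent_le hX (by linarith)
    have b4 := b1.trans (mul_le_mul_of_nonneg_left b3 hC1.le)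
    have b5 : 0 ≤ C2 * X0 ^ ν * X ^ (2 / (q : ℝ) - ν) := by positivity
    rw [hcard]
    calc (F1.card : ℝ) + F2.card ≤
          C1 * X ^ (2 / (q : ℝ) - ν) + C2 * X ^ (2 / (q : ℝ) - ν) := add_le_add b4 b2
      _ ≤ C1 * X ^ (2 / (q : ℝ) - ν) + C2 * X ^ (2 / (q : ℝ) - ν) +
          C2 * X0 ^ ν * X ^ (2 / (q : ℝ) - ν) := by linarith
      _ = _ := by ring

/-- the trivial inequality -/
theorem N1_le {q : ℕ} (α : Fin q → ℤ × ℤ)
    (hα : ∀ i j, i ≠ j → (α i).1 * (α j).2 ≠ (α j).1 * (α i).2) (S : Finset ℕ) :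
    ∃ C : ℝ, ∀ x : ℤ × ℤ, Nrm x → (∀ i, x.1 * (α i).2 - x.2 * (α i).1 ≠ 0) →
      N1 α S x ≤ q * hh x + C := by
  classical
  refine ⟨q * Real.log (U (FL α hα)), fun x hx h0 => ?_⟩
  have hpt : Pt (FL α hα) x := ⟨hx.1, fun i => by rw [ev_eq]; exact h0 i⟩
  rcases Nat.eq_zero_or_pos q with hq0 | hq0
  · subst hq0
    unfold N1
    simp
  have : NeZero q := ⟨hq0.ne'⟩
  have hht : 0 < ht x := ht_pos hpt
  have hU : (0 : ℝ) < U (FL α hα) := by exact_mod_cast U_pos _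
  have hhtR : (0 : ℝ) < ht x := by exact_mod_cast hht
  have h1 : ∀ i : Fin q, ∑ p ∈ (x.1 * (α i).2 - x.2 * (α i).1).natAbs.primeFactors \ S,
      Real.log (p : ℝ) ≤ hh x + Real.log (U (FL α hα)) := by
    intro i
    have h2 : ∑ s ∈ (x.1 * (α i).2 - x.2 * (α i).1).natAbs.primeFactors \ S, Real.log (s : ℝ) ≤
        ∑ s ∈ (x.1 * (α i).2 - x.2 * (α i).1).natAbs.primeFactors, Real.log (s : ℝ) :=
      Finset.sum_le_sum_of_subset_of_nonneg Finset.sdiff_subset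
        fun s _ _ => Real.log_natCast_nonneg s
    refine h2.trans ?_
    rw [← va_eq α hα x i]
    have h3 : lr (va (FL α hα) x i) ≤ Real.log (va (FL α hα) x i) := lr_le_log (va_pos hpt i).ne'
    refine le_trans h3 ?_
    rw [hh_eq, add_comm, ← Real.log_mul hU.ne' hhtR.ne']
    refine Real.log_le_log (by exact_mod_cast va_pos hpt i) ?_
    exact_mod_cast va_le (FL α hα) x i
  unfold N1
  refine (Finset.sum_le_sum fun i _ => h1 i).trans (le_of_eq ?_)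
  rw [Finset.sum_const, Finset.card_univ, Fintype.card_fin, nsmul_eq_mul]
  ring

end Pool.Agent.Y911.PL
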