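import Pool.Agent.Y911.AA.Main
import Pool.Agent.TH867.SQ.Line

/-! Pairs of coprime integers `u`, `v` with `u v (u + v) ≠ 0` of all heights. -/

set_option autoImplicit false

namespace Pool.Agent.Y911.PL

open Finset Filter Topology Pool.Agent.Results.MP_1ea25c_nt.AlmostAllTriples
open Pool.Agent.TH867.SQ (lr Srt srt_int lr_nonneg rr_eq)

/-- the bound `C X ^ e` for the triples of height at least `X ^ η` -/
def Bd (η e : ℝ) : Prop := ∃ C : ℝ, 0 < C ∧ ∀ X : ℝ, 1 ≤ X → ∀ F : Finset (ℕ × ℕ),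
  (∀ p ∈ F, p ∈ triples X ∧ X ^ η ≤ ((p.1 + p.2 : ℕ) : ℝ)) → (F.card : ℝ) ≤ C * X ^ e

theorem bd_all : Bd 0 (2 / 3) := by
  obtain ⟨κ, hκ, h1, -⟩ := Pool.Agent.Y911.AA.main
  have h2 := h1.eventually (eventually_le_nhds (by linarith : κ < κ + 1))
  obtain ⟨X0, hX0⟩ := Filter.eventually_atTop.1 h2
  obtain ⟨N, hN⟩ : ∃ N : ℝ, N = ((triples (max X0 1)).ncard : ℝ) := ⟨_, rfl⟩
  have hN0 : 0 ≤ N := by rw [hN]; positivity
  refine ⟨κ + 1 + N, by linarith, fun X hX F hF => ?_⟩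
  have hXp : 1 ≤ X ^ ((2 : ℝ) / 3) := Real.one_le_rpow hX (by norm_num)
  have hsub : (F : Set (ℕ × ℕ)) ⊆ triples X := fun p hp => (hF p hp).1
  rcases le_or_gt X0 X with h | h
  · have h3 := hX0 X h
    rw [div_le_iff₀ (by linarith)] at h3
    have h4 := Set.ncard_le_ncard hsub (Pool.Agent.Y911.AA.triples_finite' X)
    rw [Set.ncard_coe_finset] at h4
    have h5 : (F.card : ℝ) ≤ ((triples X).ncard : ℝ) := by exact_mod_cast h4
    have h6 : 0 ≤ N * X ^ ((2 : ℝ) / 3) := mul_nonneg hN0 (by linarith)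
    linarith
  · have h4 : (F : Set (ℕ × ℕ)) ⊆ triples (max X0 1) := by
      intro p hp
      obtain ⟨a1, a2, a3, a4⟩ := hsub hp
      exact ⟨a1, a2, a3, a4.trans (h.le.trans (le_max_left _ _))⟩
    have h5 := Set.ncard_le_ncard h4 (Pool.Agent.Y911.AA.triples_finite' _)
    rw [Set.ncard_coe_finset] at h5
    have h6 : (F.card : ℝ) ≤ N := by rw [hN]; exact_mod_cast h5
    have h7 : N * 1 ≤ N * X ^ ((2 : ℝ) / 3) := mul_le_mul_of_nonneg_left hXp hN0
    have h8 : 0 ≤ (κ + 1) * X ^ ((2 : ℝ) / 3) := mul_nonneg (by linarith) (by linarith)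
    linarith

theorem bd_high {ε : ℝ} (hε : 0 < ε) : ∃ ν : ℝ, 0 < ν ∧ ν < 2 / 3 ∧
    Bd (1 / 3 + ε) (2 / 3 - ν) := by
  obtain ⟨ν, C, hν, hν1, hC, h⟩ := Pool.Agent.Y911.AA.saving hε
  refine ⟨ν, hν, hν1, C, hC, fun X hX F hF => ?_⟩
  have hsub : (F : Set (ℕ × ℕ)) ⊆ Pool.Agent.Y911.AA.viol (1 / 3 + ε) X := by
    intro p hp
    obtain ⟨h1, h2⟩ := hF p hp
    exact ⟨h1, le_trans (Real.rpow_le_rpow (Nat.cast_nonneg _) h1.2.2.2 (by linarith)) h2⟩
  have h1 := Set.ncard_le_ncard hsub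
    ((Pool.Agent.Y911.AA.triples_finite' X).subset fun p hp => hp.1)
  rw [Set.ncard_coe_finset] at h1
  exact le_trans (by exact_mod_cast h1) (h X hX)

/-- **pairs of coprime integers of all heights** -/
theorem zpairs {η e : ℝ} (hB : Bd η e) : ∃ D : ℝ, 0 < D ∧ ∀ X : ℝ, 1 ≤ X →
    ∀ F : Finset (ℤ × ℤ), (∀ w ∈ F, IsCoprime w.1 w.2 ∧ w.1 ≠ 0 ∧ w.2 ≠ 0 ∧ w.1 + w.2 ≠ 0 ∧
      lr w.1.natAbs + lr w.2.natAbs + lr (w.1 + w.2).natAbs ≤ Real.log X ∧
      (X ^ η ≤ (w.1.natAbs : ℝ) ∨ X ^ η ≤ (w.2.natAbs : ℝ))) →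
    (F.card : ℝ) ≤ D * X ^ e := by
  classical
  obtain ⟨D, hD, h⟩ := hB
  refine ⟨36 * D, by positivity, fun X hX F hF => ?_⟩
  have hX0 : 0 < X := by linarith
  have hex : ∀ w ∈ F, ∃ t, Srt t w.1.natAbs w.2.natAbs (w.1 + w.2).natAbs := by
    intro w hw
    obtain ⟨h1, h2, h3, h4, -, -⟩ := hF w hw
    exact srt_int h1 h2 h3 h4
  choose! f hf using hex
  have h1 := h X hX (F.image fun w => (f w 0, f w 1)) (fun p hp => by
    obtain ⟨w, hw, rfl⟩ := Finset.mem_image.1 hp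
    obtain ⟨-, -, -, -, h5, h6⟩ := hF w hw
    have hs := hf w hw
    have htr := hs.tr
    have e2 : f w 0 + f w 1 = f w 2 := htr.add
    have eT : toT (f w 0, f w 1) = f w := by
      funext i
      fin_cases i
      · rfl
      · rfl
      · exact e2
    have hle : Real.log (rad3 (f w 0, f w 1)) ≤ Real.log X := by
      have h7 : (f w 0, f w 1) ∈ triples (rad3 (f w 0, f w 1) : ℝ) :=
        ⟨htr.pos, htr.le, htr.cop, le_rfl⟩
      have h8 := (toT_tr h7).2
      rw [eT, rr_eq, rr_eq, rr_eq, hs.sm] at h8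
      rw [← h8]
      exact h5
    refine ⟨⟨htr.pos, htr.le, htr.cop, ?_⟩, ?_⟩
    · exact (Real.log_le_log_iff (by exact_mod_cast rad3_pos _) hX0).1 hle
    · show X ^ η ≤ ((f w 0 + f w 1 : ℕ) : ℝ)
      rw [e2]
      rcases h6 with h6 | h6
      · obtain ⟨i, hi⟩ := hs.ix
        refine h6.trans ?_
        rw [hi]
        exact_mod_cast htr.le2 i
      · obtain ⟨i, hi⟩ := hs.iy
        refine h6.trans ?_
        rw [hi]
        exact_mod_cast htr.le2 i)
  have h2 : F.card ≤ 36 * (F.image fun w => (f w 0, f w 1)).card := by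
    refine Finset.card_le_mul_card_image F 36 fun p hp => ?_
    have hsub : F.filter (fun w => (f w 0, f w 1) = p) ⊆
        (Finset.univ : Finset (Fin 3 × Fin 3 × Bool × Bool)).image (fun c =>
          ((if c.2.2.1 then (toT p c.1 : ℤ) else -(toT p c.1 : ℤ)),
            (if c.2.2.2 then (toT p c.2.1 : ℤ) else -(toT p c.2.1 : ℤ)))) := by
      intro w hw
      obtain ⟨g1, g2⟩ := Finset.mem_filter.1 hw
      have hs := hf w g1
      have eT : f w = toT p := by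
        rw [← g2]
        funext i
        fin_cases i
        · rfl
        · rfl
        · exact hs.tr.add.symm
      obtain ⟨i, hi⟩ := hs.ix
      obtain ⟨j, hj⟩ := hs.iy
      rw [eT] at hi hj
      have e1 : ∃ b : Bool, w.1 = if b then (toT p i : ℤ) else -(toT p i : ℤ) := by
        rcases Int.natAbs_eq w.1 with h | h
        · exact ⟨true, by rw [if_pos rfl, ← hi]; exact h⟩
        · exact ⟨false, by rw [if_neg (by decide), ← hi]; exact h⟩
      have e2 : ∃ b : Bool, w.2 = if b then (toT p j : ℤ) else -(toT p j : ℤ) := by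
        rcases Int.natAbs_eq w.2 with h | h
        · exact ⟨true, by rw [if_pos rfl, ← hj]; exact h⟩
        · exact ⟨false, by rw [if_neg (by decide), ← hj]; exact h⟩
      obtain ⟨b, hb⟩ := e1
      obtain ⟨b', hb'⟩ := e2
      rw [Finset.mem_image]
      exact ⟨(i, j, b, b'), Finset.mem_univ _, Prod.ext hb.symm hb'.symm⟩
    refine (Finset.card_le_card hsub).trans (Finset.card_image_le.trans (le_of_eq ?_))
    rw [Finset.card_univ]
    rfl
  have h3 : (F.card : ℝ) ≤ 36 * ((F.image fun w => (f w 0, f w 1)).card : ℝ) := by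
    exact_mod_cast h2
  calc (F.card : ℝ) ≤ 36 * ((F.image fun w => (f w 0, f w 1)).card : ℝ) := h3
    _ ≤ 36 * (D * X ^ e) := by linarith
    _ = _ := by ring

end Pool.Agent.Y911.PL
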